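import Mathlib

set_option autoImplicit false

namespace Pool.Agent.Results.MP_d8e1db_al.Yes

open TensorProduct

section
variable (K E : Type) [Field K] [Ring E] [HopfAlgebra K E]

/-- `S` is a Hopf subalgebra: `Δ(S) ⊆ S ⊗ S` and `S` is stable under the antipode. -/
def HopfSub (S : Subalgebra K E) : Prop :=
  ∀ a ∈ S, Coalgebra.comul (R := K) a ∈
    LinearMap.range (TensorProduct.map S.val.toLinearMap S.val.toLinearMap) ∧
    HopfAlgebra.antipode K a ∈ S

/-- `H` is an `A`-complement of `E`. -/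
def Compl (A H : Subalgebra K E) : Prop :=
  HopfSub K E H ∧ Function.Bijective
    (LinearMap.mul' K E ∘ₗ TensorProduct.map A.val.toLinearMap H.val.toLinearMap)

/-- `E` is finite-dimensional and has a Hopf subalgebra `A` with infinitely many complements that
are pairwise non-isomorphic, already as algebras. -/
def InfIndex : Prop :=
  FiniteDimensional K E ∧ ∃ (A : Subalgebra K E) (H : ℕ → Subalgebra K E), HopfSub K E A ∧
    (∀ n, Compl K E A (H n)) ∧ ∀ m n, m ≠ n → IsEmpty (H m ≃ₐ[K] H n)
end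

noncomputable section

abbrev P := MvPolynomial ℕ (ZMod 2)

def k := FractionRing P

instance : Field k := inferInstanceAs (Field (FractionRing P))
instance : Algebra P k := inferInstanceAs (Algebra P (FractionRing P))
instance : IsFractionRing P k := inferInstanceAs (IsFractionRing P (FractionRing P))

lemma k2 (a : k) : a + a = 0 := CharTwo.add_self_eq_zero (R := FractionRing P) a

lemma m2 {M : Type} [AddCommGroup M] [Module k M] (a : M) : a + a = 0 := by
  rw [← one_smul k a, ← add_smul, k2, zero_smul]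

def zz {B : Type} [Ring B] (g : Bool → B) : B := g true * g false + g false * g true

def Rel (a b : FreeAlgebra k Bool) : Prop :=
  (∃ i, a = FreeAlgebra.ι k i * FreeAlgebra.ι k i ∧ b = 0) ∨
    (a = zz (FreeAlgebra.ι k) * zz (FreeAlgebra.ι k) ∧ b = zz (FreeAlgebra.ι k))

def E := RingQuot Rel

instance : Ring E := inferInstanceAs (Ring (RingQuot Rel))
instance : Algebra k E := inferInstanceAs (Algebra k (RingQuot Rel))

def pr : FreeAlgebra k Bool →ₐ[k] E := RingQuot.mkAlgHom k Rel

def g (i : Bool) : E := pr (FreeAlgebra.ι k i)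

def lift {B : Type} [Ring B] [Algebra k B] (f : Bool → B) (h : ∀ i, f i * f i = 0)
    (h2 : zz f * zz f = zz f) : E →ₐ[k] B :=
  RingQuot.liftAlgHom k ⟨FreeAlgebra.lift k f, by
    rintro _ _ (⟨i, rfl, rfl⟩ | ⟨rfl, rfl⟩)
    · simp [h]
    · simpa [zz] using h2⟩

@[simp] lemma lift_g {B : Type} [Ring B] [Algebra k B] (f : Bool → B) (h : ∀ i, f i * f i = 0)
    (h2 : zz f * zz f = zz f) (i : Bool) : lift f h h2 (g i) = f i :=
  (RingQuot.liftAlgHom_mkAlgHom_apply k _ _ _).trans (by simp)

lemma ext' {B : Type} [Semiring B] [Algebra k B] {a b : E →ₐ[k] B} (h : ∀ i, a (g i) = b (g i)) :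
    a = b := RingQuot.ringQuot_ext' k _ _ (FreeAlgebra.hom_ext (funext h))

lemma ind (Q : E → Prop) (h0 : ∀ c, Q (algebraMap k E c)) (h1 : ∀ i, Q (g i))
    (h2 : ∀ a b, Q a → Q b → Q (a * b)) (h3 : ∀ a b, Q a → Q b → Q (a + b)) (a : E) : Q a := by
  obtain ⟨a, rfl⟩ : ∃ b, pr b = a := RingQuot.mkAlgHom_surjective k Rel a
  induction a using FreeAlgebra.induction with
  | grade0 c => simpa using h0 c
  | grade1 i => exact h1 i
  | mul a b ha hb => simpa using h2 _ _ ha hb
  | add a b ha hb => simpa using h3 _ _ ha hb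

lemma gg (i : Bool) : g i * g i = 0 := by
  have : pr _ = pr _ := RingQuot.mkAlgHom_rel k (s := Rel) (.inl ⟨i, rfl, rfl⟩)
  simpa [g] using this

abbrev z : E := zz g

lemma z2 : z * z = z := by
  have : pr _ = pr _ := RingQuot.mkAlgHom_rel k (s := Rel) (.inr ⟨rfl, rfl⟩)
  simpa [g, zz] using this

lemma zg (i : Bool) : z * g i = g i * z := by
  cases i <;> simp [zz, mul_add, add_mul, mul_assoc, gg] <;> simp [← mul_assoc, gg]

lemma zD : zz (fun i => g i ⊗ₜ[k] (1 : E) + 1 ⊗ₜ g i) = z ⊗ₜ 1 + 1 ⊗ₜ z := by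
  simp only [zz, mul_add, add_mul, Algebra.TensorProduct.tmul_mul_tmul, mul_one, one_mul,
    add_tmul, tmul_add]
  rw [← sub_eq_zero, ← m2 (g true ⊗ₜ[k] g false + g false ⊗ₜ[k] g true)]; abel

def D : E →ₐ[k] E ⊗[k] E := lift (fun i => g i ⊗ₜ 1 + 1 ⊗ₜ g i)
  (fun i => by simp [mul_add, add_mul, gg, m2])
  (by
    rw [zD]
    simp only [mul_add, add_mul, Algebra.TensorProduct.tmul_mul_tmul, mul_one, one_mul, z2]
    rw [add_assoc, ← add_assoc (z ⊗ₜ z), m2, zero_add])

def ep : E →ₐ[k] k := lift (fun _ => 0) (by simp) (by simp [zz])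

def S' : E →ₐ[k] Eᵐᵒᵖ := lift (fun i => MulOpposite.op (g i))
  (fun i => by rw [← MulOpposite.op_mul, gg, MulOpposite.op_zero])
  (by
    have : zz (fun i => MulOpposite.op (g i)) = MulOpposite.op z := by simp [zz, add_comm]
    rw [this, ← MulOpposite.op_mul, z2])

def S : E →ₗ[k] E := (MulOpposite.opLinearEquiv k).symm.toLinearMap ∘ₗ S'.toLinearMap

lemma S_mul (a b : E) : S (a * b) = S b * S a := by simp [S]
lemma S_one : S 1 = 1 := by simp [S]
lemma S_g (i : Bool) : S (g i) = g i := by simp [S, S']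

instance : Bialgebra k E := Bialgebra.ofAlgHom D ep
  (ext' fun i => by simp [D, add_tmul, tmul_add, add_assoc, Algebra.TensorProduct.one_def])
  (ext' fun i => by simp [D, ep]) (ext' fun i => by simp [D, ep])

lemma anti (F : E ⊗[k] E →ₗ[k] E) (h1 : F 1 = 1)
    (h : ∀ i t, F (t * D (g i)) = g i * F t + F t * g i) (a : E) :
    F (D a) = algebraMap k E (ep a) := by
  have : ∀ t c, F t = algebraMap k E c → F (t * D a) = algebraMap k E (ep a * c) := by
    induction a using ind with
    | h0 c =>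
      intro t d e
      rw [AlgHom.commutes, ← Algebra.commutes, ← Algebra.smul_def, map_smul, e, AlgHom.commutes,
        map_mul, Algebra.smul_def]; rfl
    | h1 i => intro t c e; rw [h, e, Algebra.commutes, m2]; simp [ep]
    | h2 a b ha hb =>
      intro t c e
      rw [map_mul D, ← mul_assoc, hb _ _ (ha t c e), map_mul ep]; congr 1; ring
    | h3 a b ha hb => intro t c e; simp [mul_add, add_mul, ha t c e, hb t c e]
  simpa using this 1 1 (by simpa)

lemma anti' (F : E ⊗[k] E →ₗ[k] E) (h1 : F 1 = 1)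
    (h : ∀ i t, F (D (g i) * t) = g i * F t + F t * g i) (a : E) :
    F (D a) = algebraMap k E (ep a) := by
  have : ∀ t c, F t = algebraMap k E c → F (D a * t) = algebraMap k E (ep a * c) := by
    induction a using ind with
    | h0 c =>
      intro t d e
      rw [AlgHom.commutes, ← Algebra.smul_def, map_smul, e, AlgHom.commutes,
        map_mul, Algebra.smul_def]; rfl
    | h1 i => intro t c e; rw [h, e, Algebra.commutes, m2]; simp [ep]
    | h2 a b ha hb =>
      intro t c e
      rw [map_mul D, mul_assoc, ha _ _ (hb t c e), map_mul ep, mul_assoc]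
    | h3 a b ha hb => intro t c e; simp [add_mul, ha t c e, hb t c e]
  simpa using this 1 1 (by simpa)

instance : HopfAlgebra k E where
  antipode := S
  mul_antipode_rTensor_comul := LinearMap.ext <| anti (LinearMap.mul' k E ∘ₗ S.rTensor E)
    (by simp [Algebra.TensorProduct.one_def, S_one]) fun i t => by
      induction t with
      | zero => simp
      | tmul a b => simp [D, mul_add, S_mul, S_g, mul_assoc]
      | add a b ha hb => simp only [add_mul, map_add, ha, hb, mul_add]; abel
  mul_antipode_lTensor_comul := LinearMap.ext <| anti' (LinearMap.mul' k E ∘ₗ S.lTensor E)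
    (by simp [Algebra.TensorProduct.one_def, S_one]) fun i t => by
      induction t with
      | zero => simp
      | tmul a b => simp [D, add_mul, S_mul, S_g, mul_assoc]
      | add a b ha hb => simp only [add_mul, map_add, ha, hb, mul_add]; abel

lemma hopf (H : Subalgebra k E) (s : Set E) (h : H = Algebra.adjoin k s)
    (hs : ∀ a ∈ s, D a = a ⊗ₜ 1 + 1 ⊗ₜ a ∧ S a = a) : HopfSub k E H := by
  intro a ha
  change D a ∈ (Algebra.TensorProduct.map H.val H.val).range ∧ S a ∈ H
  rw [h] at ha
  induction ha using Algebra.adjoin_induction with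
  | mem a ha =>
    have : a ∈ H := h ▸ Algebra.subset_adjoin ha
    exact ⟨⟨⟨a, this⟩ ⊗ₜ 1 + 1 ⊗ₜ ⟨a, this⟩, by simp [(hs a ha).1]⟩, by rwa [(hs a ha).2]⟩
  | algebraMap c =>
    exact ⟨by rw [AlgHom.commutes]; exact algebraMap_mem _ c, by
      rw [Algebra.algebraMap_eq_smul_one, map_smul, S_one]; exact H.smul_mem (one_mem _) c⟩
  | add a b _ _ ha hb => rw [map_add, map_add]; exact ⟨add_mem ha.1 hb.1, add_mem ha.2 hb.2⟩
  | mul a b _ _ ha hb => rw [map_mul, S_mul]; exact ⟨mul_mem ha.1 hb.1, mul_mem hb.2 ha.2⟩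

def w (r : k) : E := g false + r • g true

lemma ww (r : k) : w r * w r = r • z := by
  simp [w, zz, mul_add, add_mul, gg, add_comm]

lemma zw (r : k) : z * w r = w r * z := by simp [w, mul_add, add_mul, zg]

def A : Subalgebra k E := Algebra.adjoin k {g true}
def H (r : k) : Subalgebra k E := Algebra.adjoin k {w r, z}

lemma memA {a : E} (h : a ∈ A) : ∃ v : Fin 2 → k, a = v 0 • 1 + v 1 • g true := by
  induction h using Algebra.adjoin_induction with
  | mem a ha => exact ⟨![0, 1], by simpa⟩
  | algebraMap c => exact ⟨![c, 0], by simp [Algebra.algebraMap_eq_smul_one]⟩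
  | add a b _ _ ha hb =>
    obtain ⟨u, rfl⟩ := ha
    obtain ⟨v, rfl⟩ := hb
    exact ⟨u + v, by simp only [Pi.add_apply]; module⟩
  | mul a b _ _ ha hb =>
    obtain ⟨u, rfl⟩ := ha
    obtain ⟨v, rfl⟩ := hb
    exact ⟨![u 0 * v 0, u 0 * v 1 + u 1 * v 0], by simp [mul_add, add_mul, gg]; module⟩

lemma mulH (r : k) (u v : Fin 4 → k) : (u 0 • 1 + u 1 • z + u 2 • w r + u 3 • (w r * z)) *
    (v 0 • 1 + v 1 • z + v 2 • w r + v 3 • (w r * z)) = (u 0 * v 0) • 1 +
      (u 0 * v 1 + u 1 * v 0 + u 1 * v 1 + r * ((u 2 + u 3) * (v 2 + v 3))) • z +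
      (u 0 * v 2 + u 2 * v 0) • w r + (u 0 * v 3 + u 3 * v 0 + u 1 * v 2 + u 2 * v 1 +
        u 1 * v 3 + u 3 * v 1) • (w r * z) := by
  have h1 : ∀ a, z * (w r * a) = w r * (z * a) := fun a => by rw [← mul_assoc, zw, mul_assoc]
  have h2 : ∀ a, w r * (w r * a) = r • (z * a) := fun a => by rw [← mul_assoc, ww, smul_mul_assoc]
  simp only [mul_add, add_mul, smul_mul_assoc, mul_smul_comm, mul_assoc, one_mul, mul_one, zw, h1,
    h2, z2, ww]
  module

lemma memH {r : k} {a : E} (h : a ∈ H r) :
    ∃ v : Fin 4 → k, a = v 0 • 1 + v 1 • z + v 2 • w r + v 3 • (w r * z) := by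
  induction h using Algebra.adjoin_induction with
  | mem a ha =>
    rcases ha with rfl | rfl
    exacts [⟨![0, 0, 1, 0], by simp⟩, ⟨![0, 1, 0, 0], by simp⟩]
  | algebraMap c => exact ⟨![c, 0, 0, 0], by simp [Algebra.algebraMap_eq_smul_one]⟩
  | add a b _ _ ha hb =>
    obtain ⟨u, rfl⟩ := ha
    obtain ⟨v, rfl⟩ := hb
    exact ⟨u + v, by simp only [Pi.add_apply]; module⟩
  | mul a b _ _ ha hb =>
    obtain ⟨u, rfl⟩ := ha
    obtain ⟨v, rfl⟩ := hb
    exact ⟨![_, _, _, _], mulH r u v⟩

lemma rk {n : ℕ} (T : Subalgebra k E) (b : Fin n → E)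
    (h : ∀ a ∈ T, ∃ v : Fin n → k, a = ∑ i, v i • b i) :
    FiniteDimensional k T ∧ Module.finrank k T ≤ n := by
  have e : T.toSubmodule ≤ Submodule.span k (Set.range b) := fun a ha => by
    obtain ⟨v, rfl⟩ := h a ha
    exact Submodule.sum_mem _ fun i _ => Submodule.smul_mem _ _ (Submodule.subset_span ⟨i, rfl⟩)
  have := FiniteDimensional.span_of_finite k (Set.finite_range b)
  exact ⟨Submodule.finiteDimensional_of_le e, (Submodule.finrank_mono e).trans
    ((finrank_range_le_card b).trans (by simp))⟩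

def X (i : Bool) : Module.End k (Fin 8 → k) where
  toFun v := if i then ![0, v 0, 0, v 2, 0, v 4, 0, v 6]
    else ![0, 0, v 0, v 5, v 1 + v 5, 0, v 3 + v 7, v 5]
  map_add' u v := by cases i <;> ext j <;> fin_cases j <;> simp <;> ring
  map_smul' c v := by cases i <;> ext j <;> fin_cases j <;> simp <;> ring

def rho : E →ₐ[k] Module.End k (Fin 8 → k) := lift X
  (fun i => LinearMap.ext fun v => by cases i <;> ext j <;> fin_cases j <;> simp [X, k2])
  (LinearMap.ext fun v => by
    ext j; fin_cases j <;> simp [X, zz]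
    linear_combination k2 (v 0) + k2 (v 4))

def ph : E →ₗ[k] Fin 8 → k := LinearMap.applyₗ ![1, 0, 0, 0, 0, 0, 0, 0] ∘ₗ rho.toLinearMap

lemma ph_surj : Function.Surjective ph := fun v =>
  ⟨v 0 • 1 + v 1 • g true + v 2 • g false + v 3 • (g true * g false) + v 4 • (g false * g true) +
    v 5 • (g true * g false * g true) + v 6 • (g false * g true * g false) +
    v 7 • (g true * g false * g true * g false), by
    ext j; fin_cases j <;> simp [ph, rho, X]⟩

lemma indep {a b : k} (h : a • (1 : E) + b • z = 0) : a = 0 ∧ b = 0 := by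
  have := congrArg ph h
  exact ⟨by simpa [ph, rho, X, zz] using congrFun this 0,
    by simpa [ph, rho, X, zz] using congrFun this 3⟩

lemma surj (r : k) : Function.Surjective
    (LinearMap.mul' k E ∘ₗ TensorProduct.map A.val.toLinearMap (H r).val.toLinearMap) := by
  set F := LinearMap.mul' k E ∘ₗ TensorProduct.map A.val.toLinearMap (H r).val.toLinearMap
  have hm : ∀ a ∈ A, ∀ h ∈ H r, a * h ∈ LinearMap.range F := fun a ha h hh =>
    ⟨⟨a, ha⟩ ⊗ₜ ⟨h, hh⟩, by simp [F]⟩
  have hx : g true ∈ A := Algebra.subset_adjoin rfl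
  have hw : w r ∈ H r := Algebra.subset_adjoin (.inl rfl)
  have hz : z ∈ H r := Algebra.subset_adjoin (.inr rfl)
  have gen : ∀ e : E, (∀ a ∈ A, ∀ h ∈ H r, e * (a * h) ∈ LinearMap.range F) →
      ∀ t ∈ LinearMap.range F, e * t ∈ LinearMap.range F := by
    rintro e he _ ⟨t, rfl⟩
    induction t with
    | zero => simp
    | tmul a b => simpa [F] using he a a.2 b b.2
    | add a b ha hb => rw [map_add, mul_add]; exact add_mem ha hb
  have g1 := gen (g true) fun a ha h hh => by rw [← mul_assoc]; exact hm _ (mul_mem hx ha) h hh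
  have g2 := gen (w r) fun a ha h hh => by
    obtain ⟨v, rfl⟩ := memA ha
    have : w r * ((v 0 • 1 + v 1 • g true) * h) = v 0 • (1 * (w r * h)) +
        v 1 • (g true * (w r * h) + 1 * (z * h)) := by
      simp only [w, zz, mul_add, add_mul, smul_mul_assoc, mul_smul_comm, ← mul_assoc, gg, one_mul,
        zero_mul, smul_zero, add_zero, ← add_assoc, m2, zero_add]
    rw [this]
    exact add_mem (Submodule.smul_mem _ _ (hm _ (one_mem _) _ (mul_mem hw hh)))
      (Submodule.smul_mem _ _ (add_mem (hm _ hx _ (mul_mem hw hh))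
        (hm _ (one_mem _) _ (mul_mem hz hh))))
  have all : ∀ e : E, ∀ t ∈ LinearMap.range F, e * t ∈ LinearMap.range F := fun e => by
    induction e using ind with
    | h0 c => intro t ht; rw [← Algebra.smul_def]; exact Submodule.smul_mem _ _ ht
    | h1 i =>
      cases i
      · intro t ht
        have : g false * t = w r * t - r • (g true * t) := by simp [w, add_mul]
        rw [this]; exact sub_mem (g2 t ht) (Submodule.smul_mem _ _ (g1 t ht))
      · exact g1
    | h2 a b ha hb => intro t ht; rw [mul_assoc]; exact ha _ (hb t ht)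
    | h3 a b ha hb => intro t ht; rw [add_mul]; exact add_mem (ha t ht) (hb t ht)
  intro e
  simpa using all e _ (hm 1 (one_mem _) 1 (one_mem _))

def t (n : ℕ) : k := algebraMap P k (MvPolynomial.X n)

lemma nosq {m n : ℕ} (h : m ≠ n) (a b : k) : t m ≠ a * a + t n * (b * b) := by
  intro e
  obtain ⟨p, q, hq, rfl⟩ := IsFractionRing.div_surjective (A := P) a
  obtain ⟨p', q', hq', rfl⟩ := IsFractionRing.div_surjective (A := P) b
  have h1 := IsFractionRing.to_map_ne_zero_of_mem_nonZeroDivisors (K := k) hq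
  have h2 := IsFractionRing.to_map_ne_zero_of_mem_nonZeroDivisors (K := k) hq'
  have e2 : MvPolynomial.X m * (q * q') ^ 2 = (p * q') ^ 2 + MvPolynomial.X n * (p' * q) ^ 2 := by
    apply IsFractionRing.injective P k
    simp only [map_mul, map_add, map_pow]
    unfold t at e
    rw [e]; field_simp
  have := congrArg (MvPolynomial.pderiv m) e2
  have h0 : ∀ p : P, MvPolynomial.pderiv m (p ^ 2) = 0 := fun p => by
    rw [Derivation.leibniz_pow, two_nsmul, CharTwo.add_self_eq_zero]
  simp [h0, MvPolynomial.pderiv_X_of_ne h.symm, nonZeroDivisors.ne_zero hq,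
    nonZeroDivisors.ne_zero hq', -Derivation.leibniz_pow] at this

end

theorem result : ∃ (K E : Type) (_ : Field K) (_ : Ring E) (_ : HopfAlgebra K E), InfIndex K E := by
  have a := rk A ![1, g true] fun a ha => by simpa [Fin.sum_univ_succ] using memA ha
  have b := fun r => rk (H r) ![1, z, w r, w r * z] fun a ha => by
    simpa [Fin.sum_univ_succ, add_assoc] using memH ha
  have := a.1
  have := fun r => (b r).1
  have := Module.Finite.of_surjective _ (surj 0)
  have Sz : S z = z := by simp [zz, S_mul, S_g, add_comm]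
  refine ⟨k, E, _, _, inferInstance, this, A, fun n => H (t n),
    hopf _ _ rfl (by simp [D, S_g]), fun n => ⟨hopf _ _ rfl ?_, ?_, surj _⟩, fun m n h => ⟨fun e => ?_⟩⟩
  · rintro _ (rfl | rfl)
    · simp [w, D, S_g, add_tmul, tmul_add, smul_tmul']; abel
    · exact ⟨by simpa [D, zz] using zD, Sz⟩
  · refine (LinearMap.injective_iff_surjective_of_finrank_eq_finrank ?_).2 (surj _)
    have h1 := LinearMap.finrank_le_finrank_of_surjective (surj (t n))
    have h2 := LinearMap.finrank_le_finrank_of_surjective ph_surj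
    have h3 := Nat.mul_le_mul a.2 (b (t n)).2
    rw [Module.finrank_tensorProduct] at h1 ⊢
    simp at h2 ⊢
    omega
  · have t0 : ∀ n, t n ≠ 0 := fun n h => by
      simpa using (IsFractionRing.injective P k).ne_iff' (map_zero _) |>.2
        (MvPolynomial.X_ne_zero n) h
    let u : H (t m) := ⟨w (t m), Algebra.subset_adjoin (.inl rfl)⟩
    have h1 : u * u * (u * u) = t m • (u * u) := Subtype.ext (by simp [u, ww, z2])
    have h2 : u * u ≠ 0 := fun h => t0 m (indep (a := 0) (by
      simpa [u, ww] using congrArg Subtype.val h)).2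
    have h3 := congrArg (fun x => (e x).1) h1
    have h4 : (e u).1 * (e u).1 ≠ 0 := fun h => h2 (e.injective (Subtype.ext (by simpa)))
    simp only [map_mul, map_smul, MulMemClass.coe_mul, SetLike.val_smul] at h3
    obtain ⟨v, hv⟩ := memH (e u).2
    rw [hv, mulH] at h3 h4
    have c1 : v 0 * v 2 + v 2 * v 0 = 0 := by rw [mul_comm, k2]
    have c2 : v 0 * v 3 + v 3 * v 0 + v 1 * v 2 + v 2 * v 1 + v 1 * v 3 + v 3 * v 1 = 0 := by
      linear_combination k2 (v 0 * v 3 + v 1 * v 2 + v 1 * v 3)
    have c3 : v 0 * v 1 + v 1 * v 0 = 0 := by rw [mul_comm, k2]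
    rw [c1, c2, c3, zero_smul, zero_smul, add_zero, add_zero, zero_add] at h3 h4
    have n1 := nosq h (v 0) 0
    have n2 := nosq h (v 1) (v 2 + v 3)
    generalize v 1 * v 1 + t n * ((v 2 + v 3) * (v 2 + v 3)) = d at h3 h4 n2
    generalize v 0 * v 0 = c at h3 h4 n1
    have := indep (a := c * (c - t m)) (b := d * (d - t m)) (by
      rw [← sub_eq_zero.2 h3, ← sub_zero (_ - t m • _), ← m2 ((c * d) • z)]
      simp only [mul_add, add_mul, smul_mul_assoc, mul_smul_comm, one_mul, mul_one, z2]
      module)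
    simp only [mul_eq_zero, sub_eq_zero, mul_zero, add_zero] at this n1
    exact h4 (by simp [this.1.resolve_right n1.symm, this.2.resolve_right n2.symm])

end Pool.Agent.Results.MP_d8e1db_al.Yes
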